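import Mathlib
import Pool.Agent.Helper67.ChuaVol

set_option autoImplicit false
open Filter Topology MeasureTheory
open Pool.Agent.Helper67.Chua

namespace Pool.Agent.Results.MP_659bab_an.GainThreshold

/-- The number `kStar = (√911425 - 835)/252 ≈ 0.475` is the exact threshold gain between unbounded
and bounded synchronization errors of the double-scroll Chua receiver.  Below it, every
transmitter solution has a receiver solution whose error tends to infinity.  Above it, all errors
are ultimately bounded by a constant depending only on the gain, and every receiver solution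
synchronizes with every transmitter solution whose orbit is unbounded; the initial points with
unbounded orbit form a set of infinite Lebesgue measure. -/
theorem result :
    (∀ k : ℝ, 0 < k → k < kStar → ∀ x1 x2 x3 : ℝ → ℝ, Transmitter x1 x2 x3 →
      ∃ y1 y2 y3 : ℝ → ℝ, Receiver k x2 y1 y2 y3 ∧
        Tendsto (fun t => |x1 t - y1 t| + |x2 t - y2 t| + |x3 t - y3 t|) atTop atTop) ∧
    (∀ k : ℝ, kStar < k →
      (∃ B : ℝ, ∀ x1 x2 x3 y1 y2 y3 : ℝ → ℝ, Transmitter x1 x2 x3 → Receiver k x2 y1 y2 y3 →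
        ∀ᶠ t in atTop, |x1 t - y1 t| + |x2 t - y2 t| + |x3 t - y3 t| ≤ B) ∧
      (∀ x1 x2 x3 y1 y2 y3 : ℝ → ℝ, Transmitter x1 x2 x3 → UnboundedOrbit x1 x2 x3 →
        Receiver k x2 y1 y2 y3 →
        Tendsto (fun t => x1 t - y1 t) atTop (𝓝 0) ∧
        Tendsto (fun t => x2 t - y2 t) atTop (𝓝 0) ∧
        Tendsto (fun t => x3 t - y3 t) atTop (𝓝 0))) ∧
    volume {x₀ : Fin 3 → ℝ | ∃ x1 x2 x3 : ℝ → ℝ, (x1 0 = x₀ 0 ∧ x2 0 = x₀ 1 ∧ x3 0 = x₀ 2) ∧
      Transmitter x1 x2 x3 ∧ UnboundedOrbit x1 x2 x3} = ⊤ := by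
  refine ⟨?_, ?_, volume_unbounded⟩
  · intro k hk hk2 x1 x2 x3 hx
    exact diverge hk hk2 hx
  · intro k hk
    refine ⟨ultimately_bounded hk, ?_⟩
    intro x1 x2 x3 y1 y2 y3 hx hu hy
    exact synchronize hk hx hu hy

end Pool.Agent.Results.MP_659bab_an.GainThreshold
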